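import Mathlib
import Pool.Agent.Helper259.Uniform

set_option autoImplicit false

/-!
# Ample heights on geometric quotients are minimal heights in orbits

Let `X` be a quasi-projective variety over the algebraic closure `Qbar` of `ℚ`, embedded in `ℙ^n`, on
which a group `G` acts, and let `π : X → Y = X // G` be a geometric quotient, `Y` embedded in `ℙ^m`.
We only use that `π` is a regular map whose fibres (of `Qbar`-points) are the orbits of `G`. Then
`h_Y(π x) ≍ inf_{g ∈ G} h_X(g x)` for `x ∈ X`, for the absolute logarithmic Weil heights.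

The upper bound `h_Y(π x) ≤ c h_X(x) + c'` is elementary. For the other one we need in each fibre
`π⁻¹(y)` a point whose height is bounded by `c h_Y(y) + c'`. If there is none for `y = y_j` and
`c = c' = j`, `j = 1, 2, …`, consider the point `y_*` of `ℙ^m` over the ultrapower of `Qbar` given by the
`y_j`. The fibre over `y_*` has a point over the ultrapower, so by the Nullstellensatz it has one whose
coordinates are algebraic over the field generated by the coordinates of `y_*` over `Qbar`. The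
polynomials satisfied by these coordinates bound the heights of the corresponding points in the fibres
over the `y_j`, for almost all `j`, a contradiction.
-/

namespace Pool.Agent.Results.MP_216eb3_nt.OrbitHeights

open MvPolynomial
open scoped LinearAlgebra.Projectivization
open Pool.Agent.Helper259.AbsHt (Qbar absLogHeight absLogHeight_smul absLogHeight_nonneg
  absLogHeight_eval absLogHeight_le_sum aff_le_of_eq_one)
open Pool.Agent.Helper259.Uniform (h1 h1_nonneg uniform)

/-- The points of the projective space of dimension `n` over the algebraic closure of `ℚ`. -/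
abbrev ProjSpace (n : ℕ) : Type := ℙ Qbar (Fin (n + 1) → Qbar)

/-- The absolute logarithmic Weil height of a point of projective space: the logarithmic height of
its homogeneous coordinates over the number field `L` generated by them, divided by `[L : ℚ]`. -/
noncomputable def height {n : ℕ} (x : ProjSpace n) : ℝ := absLogHeight x.rep

/-- `X` is a locally closed subset of projective space: a (possibly reducible) quasi-projective
variety. -/
def IsLocallyClosed {n : ℕ} (X : Set (ProjSpace n)) : Prop :=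
  ∃ F G : Set (MvPolynomial (Fin (n + 1)) Qbar), (∀ f ∈ F, ∃ e, f.IsHomogeneous e) ∧
    (∀ g ∈ G, ∃ e, g.IsHomogeneous e) ∧
    ∀ x, x ∈ X ↔ (∀ f ∈ F, eval x.rep f = 0) ∧ ∃ g ∈ G, eval x.rep g ≠ 0

/-- `π` is a regular map from `X` to the projective space of dimension `m`: for each point of `X` there
are a neighbourhood `h ≠ 0` of it and forms `f 0, …, f m` of the same degree that have no common zero
in this neighbourhood and give the map `π` there. -/
def IsRegularMap {n m : ℕ} {X : Set (ProjSpace n)} (π : X → ProjSpace m) : Prop :=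
  ∀ x : X, ∃ (h : MvPolynomial (Fin (n + 1)) Qbar) (f : Fin (m + 1) → MvPolynomial (Fin (n + 1)) Qbar)
    (a b : ℕ), h.IsHomogeneous a ∧ (∀ i, (f i).IsHomogeneous b) ∧ eval x.1.rep h ≠ 0 ∧
    ∀ x' : X, eval x'.1.rep h ≠ 0 →
      ∃ hf : (fun i => eval x'.1.rep (f i)) ≠ 0, π x' = Projectivization.mk Qbar _ hf

/-- `A ≍ B`: there are `c₁, c₂ > 0` and `c₃, c₄` with `c₁ A - c₃ ≤ B ≤ c₂ A + c₄`. -/
def Commensurate {S : Type*} (A B : S → ℝ) : Prop :=
  ∃ c₁ c₂ c₃ c₄ : ℝ, 0 < c₁ ∧ 0 < c₂ ∧ ∀ s, c₁ * A s - c₃ ≤ B s ∧ B s ≤ c₂ * A s + c₄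

theorem eval_smul {n e : ℕ} {f : MvPolynomial (Fin n) Qbar} (hf : f.IsHomogeneous e) (c : Qbar)
    (v : Fin n → Qbar) : eval (c • v) f = c ^ e * eval v f := by
  rw [eval_eq, eval_eq, Finset.mul_sum]
  refine Finset.sum_congr rfl fun s hs => ?_
  have hdeg : s.degree = e := by
    have := hf (mem_support_iff.mp hs)
    rw [← this, Finsupp.degree_eq_weight_one]
    rfl
  have h2 : ∏ i ∈ s.support, (c • v) i ^ s i = c ^ e * ∏ i ∈ s.support, v i ^ s i := by
    simp only [Pi.smul_apply, smul_eq_mul, mul_pow, Finset.prod_mul_distrib]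
    rw [Finset.prod_pow_eq_pow_sum, ← hdeg]
    rfl
  rw [h2]
  ring

theorem rep_mk {n : ℕ} (v : Fin (n + 1) → Qbar) (hv : v ≠ 0) :
    ∃ c : Qbar, c ≠ 0 ∧ (Projectivization.mk Qbar v hv).rep = c • v := by
  obtain ⟨a, ha⟩ := Projectivization.exists_smul_eq_mk_rep Qbar v hv
  exact ⟨a, a.ne_zero, ha.symm⟩

theorem height_mk {n : ℕ} (v : Fin (n + 1) → Qbar) (hv : v ≠ 0) :
    height (Projectivization.mk Qbar v hv) = absLogHeight v := by
  obtain ⟨c, hc, h⟩ := rep_mk v hv
  rw [height, h, absLogHeight_smul v hc]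

theorem height_nonneg {n : ℕ} (x : ProjSpace n) : 0 ≤ height x := absLogHeight_nonneg _

theorem eval_ne {n e : ℕ} {f : MvPolynomial (Fin n) Qbar} (hf : f.IsHomogeneous e) {c : Qbar}
    (hc : c ≠ 0) (v : Fin n → Qbar) : eval (c • v) f = 0 ↔ eval v f = 0 := by
  rw [eval_smul hf]
  simp [hc]

/-- a finite subset with the same common zeros -/
theorem exists_finite {n : ℕ} (F : Set (MvPolynomial (Fin n) Qbar)) :
    ∃ F' : Finset (MvPolynomial (Fin n) Qbar), (F' : Set _) ⊆ F ∧
      ∀ x : Fin n → Qbar, (∀ f ∈ F', eval x f = 0) → ∀ f ∈ F, eval x f = 0 := by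
  have hfg : (Submodule.span (MvPolynomial (Fin n) Qbar) F).FG := IsNoetherian.noetherian _
  obtain ⟨F', hF', hspan⟩ := Submodule.fg_span_iff_fg_span_finset_subset F |>.1 hfg
  refine ⟨F', hF', fun x hx f hf => ?_⟩
  have h1 : f ∈ Submodule.span (MvPolynomial (Fin n) Qbar) (F' : Set _) := by
    rw [← hspan]
    exact Submodule.subset_span hf
  have h2 : Ideal.span (F' : Set (MvPolynomial (Fin n) Qbar)) ≤ RingHom.ker (eval x) := by
    rw [Ideal.span_le]
    intro g hg
    exact hx g hg
  exact h2 h1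

/-- the points over one chart -/
theorem chart {n m : ℕ} (F : Finset (MvPolynomial (Fin (n + 1)) Qbar))
    (g h : MvPolynomial (Fin (n + 1)) Qbar) (f : Fin (m + 1) → MvPolynomial (Fin (n + 1)) Qbar)
    (k : Fin (n + 1)) :
    ∃ C : ℝ, 0 ≤ C ∧ ∀ y : Fin (m + 1) → Qbar,
      (∃ x : Fin (n + 1) → Qbar, (∀ p ∈ F, eval x p = 0) ∧
        (∀ i j, y i * eval x (f j) = y j * eval x (f i)) ∧
        eval x g ≠ 0 ∧ eval x h ≠ 0 ∧ x k ≠ 0) →
      ∃ x : Fin (n + 1) → Qbar, (∀ p ∈ F, eval x p = 0) ∧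
        (∀ i j, y i * eval x (f j) = y j * eval x (f i)) ∧
        eval x g ≠ 0 ∧ eval x h ≠ 0 ∧ x k ≠ 0 ∧
        absLogHeight x ≤ C * (1 + ∑ a, h1 (y a)) := by
  classical
  set S : Set (MvPolynomial (Fin (m + 1) ⊕ Fin (n + 1)) Qbar) :=
    (fun p => rename Sum.inr p) '' (F : Set (MvPolynomial (Fin (n + 1)) Qbar)) ∪
      Set.range (fun ij : Fin (m + 1) × Fin (m + 1) =>
        X (Sum.inl ij.1) * rename Sum.inr (f ij.2) - X (Sum.inl ij.2) * rename Sum.inr (f ij.1)) with hS
  have hfin : S.Finite := (F.finite_toSet.image _).union (Set.finite_range _)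
  have hev : ∀ (y : Fin (m + 1) → Qbar) (x : Fin (n + 1) → Qbar)
      (p : MvPolynomial (Fin (n + 1)) Qbar), eval (Sum.elim y x) (rename Sum.inr p) = eval x p := by
    intro y x p
    rw [eval_rename]
    rfl
  have hSev : ∀ (y : Fin (m + 1) → Qbar) (x : Fin (n + 1) → Qbar),
      (∀ q ∈ S, eval (Sum.elim y x) q = 0) ↔ (∀ p ∈ F, eval x p = 0) ∧
        (∀ i j, y i * eval x (f j) = y j * eval x (f i)) := by
    intro y x
    constructor
    · intro hq
      refine ⟨fun p hp => ?_, fun i j => ?_⟩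
      · rw [← hev y x p]
        exact hq _ (Or.inl ⟨p, hp, rfl⟩)
      · have := hq _ (Or.inr ⟨(i, j), rfl⟩)
        simp only [map_sub, map_mul, eval_X, Sum.elim_inl, hev] at this
        exact sub_eq_zero.1 this
    · rintro ⟨h1, h2⟩ q (⟨p, hp, rfl⟩ | ⟨⟨i, j⟩, rfl⟩)
      · simp only [hev]
        exact h1 p hp
      · simp only [map_sub, map_mul, eval_X, Sum.elim_inl, hev]
        exact sub_eq_zero.2 (h2 i j)
  obtain ⟨C, hC0, hC⟩ := uniform S hfin (rename Sum.inr (g * h * X k))
  refine ⟨(n + 1) * C, by positivity, fun y hy => ?_⟩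
  obtain ⟨x, hx1, hx2, hxg, hxh, hxk⟩ := hy
  obtain ⟨x', hx1', hx2', hx3'⟩ := hC y ⟨x, (hSev y x).2 ⟨hx1, hx2⟩, by
    rw [hev, map_mul, map_mul, eval_X]
    exact mul_ne_zero (mul_ne_zero hxg hxh) hxk⟩
  rw [hev, map_mul, map_mul, eval_X] at hx2'
  obtain ⟨h3, h4⟩ := (hSev y x').1 hx1'
  refine ⟨x', h3, h4, left_ne_zero_of_mul (left_ne_zero_of_mul hx2'),
    right_ne_zero_of_mul (left_ne_zero_of_mul hx2'), right_ne_zero_of_mul hx2', ?_⟩
  calc absLogHeight x' ≤ ∑ i, absLogHeight ![1, x' i] := absLogHeight_le_sum x'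
    _ ≤ ∑ _i : Fin (n + 1), C * (1 + ∑ a, h1 (y a)) := Finset.sum_le_sum fun i _ => hx3' i
    _ = (n + 1) * C * (1 + ∑ a, h1 (y a)) := by
      rw [Finset.sum_const, Finset.card_univ, Fintype.card_fin, nsmul_eq_mul]
      push_cast
      ring

/-- **Ample heights on geometric quotients are minimal heights in orbits.** Let `X ⊆ ℙ^n` be a
quasi-projective variety over `Qbar` with an action of a group `G`, and let `π : X → ℙ^m` be a regular
map whose fibres are the orbits of `G` (for instance a geometric quotient `X → Y = X // G`, followed by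
an embedding `Y ⊆ ℙ^m`). Then `h_Y(π x) ≍ inf_{g ∈ G} h_X(g x)` on `X`. -/
theorem result {n m : ℕ} (X : Set (ProjSpace n)) (hX : IsLocallyClosed X)
    {G : Type*} [Group G] [MulAction G X] (π : X → ProjSpace m) (hπ : IsRegularMap π)
    (horb : ∀ x x' : X, π x = π x' ↔ ∃ g : G, g • x = x') :
    Commensurate (fun x : X => height (π x)) (fun x : X => ⨅ g : G, height (g • x : X).1) := by
  classical
  rcases isEmpty_or_nonempty X with hemp | hnon
  · exact ⟨1, 1, 0, 0, one_pos, one_pos, fun x => hemp.elim x⟩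
  obtain ⟨F, Γ, hF, hΓ, hXF⟩ := hX
  choose h f a b hha hfb hhx hπf using hπ
  obtain ⟨F', hF', hF2⟩ := exists_finite F
  obtain ⟨Γ', hΓ', hΓ2⟩ := exists_finite Γ
  obtain ⟨H', hH', hH2⟩ := exists_finite (Set.range h)
  -- the charts
  have hchart : ∀ q ∈ H', ∃ x0 : X, h x0 = q := fun q hq => hH' hq
  choose! z hz using hchart
  have hcov : ∀ x : X, ∃ q ∈ H', eval x.1.rep (h (z q)) ≠ 0 := by
    intro x
    by_contra hcon
    push Not at hcon
    refine hhx x (hH2 x.1.rep (fun q hq => ?_) (h x) ⟨x, rfl⟩)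
    have := hcon q hq
    rwa [hz q hq] at this
  have hcovΓ : ∀ x : X, ∃ g ∈ Γ', eval x.1.rep g ≠ 0 := by
    intro x
    by_contra hcon
    push Not at hcon
    obtain ⟨g, hg, hgx⟩ := ((hXF x.1).1 x.2).2
    exact hgx (hΓ2 x.1.rep hcon g hg)
  -- the lower bound
  choose B hB using fun x0 : X => absLogHeight_eval (b x0) (f x0) (hfb x0)
  have hlow : ∃ c C : ℝ, 0 < c ∧ 0 ≤ C ∧ ∀ x : X, height (π x) ≤ c * height x.1 + C := by
    refine ⟨1 + ∑ q ∈ H', (b (z q) : ℝ), ∑ q ∈ H', |B (z q)|, by positivity, by positivity,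
      fun x => ?_⟩
    obtain ⟨q, hq, hqx⟩ := hcov x
    obtain ⟨hne, hval⟩ := hπf (z q) x hqx
    rw [hval, height_mk]
    have h2 := hB (z q) x.1.rep
    have h3 : (b (z q) : ℝ) ≤ ∑ q ∈ H', (b (z q) : ℝ) :=
      Finset.single_le_sum (f := fun q => (b (z q) : ℝ)) (fun i _ => Nat.cast_nonneg _) hq
    have h4 : |B (z q)| ≤ ∑ q ∈ H', |B (z q)| :=
      Finset.single_le_sum (f := fun q => |B (z q)|) (fun i _ => abs_nonneg _) hq
    have h5 := height_nonneg x.1
    have h6 : height x.1 = absLogHeight x.1.rep := rfl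
    have h7 := le_abs_self (B (z q))
    rw [← h6] at h2
    nlinarith
  obtain ⟨c, C, hc, hC, hlow⟩ := hlow
  -- the upper bound
  choose A hA0 hA using fun (q g : MvPolynomial (Fin (n + 1)) Qbar) (k : Fin (n + 1)) =>
    chart (m := m) F' g (h (z q)) (f (z q)) k
  set A' : ℝ := ∑ q ∈ H', ∑ g ∈ Γ', ∑ k, A q g k with hA'
  have hAnn : 0 ≤ A' := Finset.sum_nonneg fun q _ => Finset.sum_nonneg fun g _ =>
    Finset.sum_nonneg fun k _ => hA0 q g k
  have hAle : ∀ q ∈ H', ∀ g ∈ Γ', ∀ k, A q g k ≤ A' := by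
    intro q hq g hg k
    calc A q g k ≤ ∑ k, A q g k :=
          Finset.single_le_sum (f := fun k => A q g k) (fun i _ => hA0 q g i) (Finset.mem_univ k)
      _ ≤ ∑ g ∈ Γ', ∑ k, A q g k :=
          Finset.single_le_sum (f := fun g => ∑ k, A q g k)
            (fun g _ => Finset.sum_nonneg fun k _ => hA0 q g k) hg
      _ ≤ A' :=
          Finset.single_le_sum (f := fun q => ∑ g ∈ Γ', ∑ k, A q g k)
            (fun q _ => Finset.sum_nonneg fun g _ => Finset.sum_nonneg fun k _ => hA0 q g k) hq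
  have hup : ∀ x : X, ∃ x' : X, π x = π x' ∧
      height x'.1 ≤ A' * (1 + (m + 1) * height (π x)) := by
    intro x
    obtain ⟨q, hq, hqx⟩ := hcov x
    obtain ⟨g, hg, hgx⟩ := hcovΓ x
    obtain ⟨k, hk⟩ : ∃ k, x.1.rep k ≠ 0 := Function.ne_iff.1 x.1.rep_nonzero
    obtain ⟨hne, hval⟩ := hπf (z q) x hqx
    set v : Fin (m + 1) → Qbar := fun i => eval x.1.rep (f (z q) i) with hv
    obtain ⟨i0, hi0⟩ : ∃ i, v i ≠ 0 := Function.ne_iff.1 hne
    set y : Fin (m + 1) → Qbar := (v i0)⁻¹ • v with hy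
    have hyi0 : y i0 = 1 := by
      simp only [hy, Pi.smul_apply, smul_eq_mul]
      exact inv_mul_cancel₀ hi0
    have hyh : absLogHeight y = height (π x) := by
      rw [hval, height_mk, hy, absLogHeight_smul v (inv_ne_zero hi0)]
    obtain ⟨x', hx1, hx2, hx3, hx4, hx5, hx6⟩ := hA q g k y ⟨x.1.rep, fun p hp =>
      ((hXF x.1).1 x.2).1 p (hF' hp), fun i j => by
        simp only [hy, Pi.smul_apply, smul_eq_mul]
        change (v i0)⁻¹ * v i * v j = (v i0)⁻¹ * v j * v i
        ring, hgx, hqx, hk⟩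
    have hx'0 : x' ≠ 0 := by
      rintro rfl
      exact hx5 rfl
    obtain ⟨l, hl, hrep⟩ := rep_mk x' hx'0
    have hmem : Projectivization.mk Qbar x' hx'0 ∈ X := by
      rw [hXF]
      refine ⟨fun p hp => ?_, g, hΓ' hg, ?_⟩
      · obtain ⟨e, he⟩ := hF p hp
        rw [hrep, eval_ne he hl]
        exact hF2 x' hx1 p hp
      · obtain ⟨e, he⟩ := hΓ g (hΓ' hg)
        rw [hrep, Ne, eval_ne he hl]
        exact hx3
    refine ⟨⟨_, hmem⟩, ?_, ?_⟩
    · obtain ⟨hne', hval'⟩ := hπf (z q) ⟨_, hmem⟩ (by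
        change eval (Projectivization.mk Qbar x' hx'0).rep (h (z q)) ≠ 0
        rw [hrep, Ne, eval_ne (hha (z q)) hl]
        exact hx4)
      rw [hval, hval', Projectivization.mk_eq_mk_iff']
      set w : Fin (m + 1) → Qbar := fun i => eval x' (f (z q) i) with hw
      have hrw : (fun i => eval (Projectivization.mk Qbar x' hx'0).rep (f (z q) i)) =
          l ^ (b (z q)) • w := by
        funext i
        rw [hrep, eval_smul (hfb (z q) i)]
        rfl
      have hne2 : (fun i => eval (Projectivization.mk Qbar x' hx'0).rep (f (z q) i)) ≠ 0 := hne'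
      rw [hrw] at hne2
      have hw0 : w ≠ 0 := by
        intro h0
        rw [h0, smul_zero] at hne2
        exact hne2 rfl
      have hlb : l ^ (b (z q)) ≠ 0 := pow_ne_zero _ hl
      -- `y i0 = 1`
      have hwy : ∀ i, w i = w i0 * y i := by
        intro i
        have h8 := hx2 i0 i
        rw [hyi0, one_mul] at h8
        change w i = y i * w i0 at h8
        rw [h8]
        ring
      have hwi0 : w i0 ≠ 0 := by
        intro h0
        apply hw0
        funext i
        rw [hwy i, h0, zero_mul]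
        rfl
      refine ⟨v i0 * (w i0)⁻¹ * (l ^ (b (z q)))⁻¹, ?_⟩
      change (v i0 * (w i0)⁻¹ * (l ^ (b (z q)))⁻¹) •
        (fun i => eval (Projectivization.mk Qbar x' hx'0).rep (f (z q) i)) = v
      rw [hrw]
      funext i
      simp only [Pi.smul_apply, smul_eq_mul]
      rw [hwy i]
      simp only [hy, Pi.smul_apply, smul_eq_mul]
      field_simp
    · have h9 : height (Projectivization.mk Qbar x' hx'0) ≤ A q g k * (1 + ∑ a, h1 (y a)) := by
        rw [height_mk]
        exact hx6
      have h10 : ∑ a, h1 (y a) ≤ (m + 1) * height (π x) := by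
        calc ∑ a, h1 (y a) ≤ ∑ _a : Fin (m + 1), height (π x) :=
              Finset.sum_le_sum fun a _ => by
                rw [← hyh]
                exact aff_le_of_eq_one y i0 hyi0 a
          _ = (m + 1) * height (π x) := by
              rw [Finset.sum_const, Finset.card_univ, Fintype.card_fin, nsmul_eq_mul]
              push_cast
              ring
      have h11 : 0 ≤ ∑ a, h1 (y a) := Finset.sum_nonneg fun a _ => h1_nonneg _
      calc height (Projectivization.mk Qbar x' hx'0) ≤ A q g k * (1 + ∑ a, h1 (y a)) := h9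
        _ ≤ A' * (1 + (m + 1) * height (π x)) := by
            refine mul_le_mul (hAle q hq g hg k) (by linarith) (by linarith) hAnn
  refine ⟨c⁻¹, A' * (m + 1) + 1, c⁻¹ * C, A', by positivity, by positivity, fun x => ⟨?_, ?_⟩⟩
  · refine le_ciInf fun g => ?_
    have h2 := hlow (g • x)
    have h3 : π x = π (g • x) := (horb x (g • x)).2 ⟨g, rfl⟩
    rw [← h3] at h2
    rw [← mul_sub, inv_mul_le_iff₀ hc]
    linarith
  · obtain ⟨x', hx1, hx2⟩ := hup x
    obtain ⟨g, hg⟩ := (horb x x').1 hx1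
    have hbdd : BddBelow (Set.range fun g : G => height (g • x : X).1) :=
      ⟨0, by rintro _ ⟨g, rfl⟩; exact height_nonneg _⟩
    have h2 : ⨅ g : G, height (g • x : X).1 ≤ height x'.1 := by
      rw [← hg]
      exact ciInf_le hbdd g
    have h3 := height_nonneg (π x)
    calc ⨅ g : G, height (g • x : X).1 ≤ height x'.1 := h2
      _ ≤ A' * (1 + (m + 1) * height (π x)) := hx2
      _ ≤ (A' * (m + 1) + 1) * height (π x) + A' := by nlinarith

end Pool.Agent.Results.MP_216eb3_nt.OrbitHeights
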